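import Pool.Agent.H343.QF.StL
import Pool.Graph.R_seed8.Helper844.DPRM

set_option autoImplicit false

namespace Pool.Agent.H972.QF.L2

open Pool.Agent.H.MP_c33acd_lc Pool.Agent.H343.QF Pool.Agent.Helper844.Dio

/-- the terms of a polynomial -/
theorem poly_nt {γ : Type} {f : (γ → ℕ) → ℤ} (h : IsPoly f) :
    ∃ a b : (γ → ℕ) → ℕ, NT γ a ∧ NT γ b ∧ ∀ v, f v = (a v : ℤ) - b v := by
  induction h with
  | proj i => exact ⟨fun v => v i, fun _ => 0, NT.var i, NT.const 0, fun v => by simp⟩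
  | const n =>
    refine ⟨fun _ => n.toNat, fun _ => (-n).toNat, NT.const _, NT.const _, fun v => ?_⟩
    simp only
    omega
  | sub _ _ ih ih' =>
    obtain ⟨a, b, ha, hb, e⟩ := ih
    obtain ⟨a', b', ha', hb', e'⟩ := ih'
    refine ⟨fun v => a v + b' v, fun v => b v + a' v, ha.add hb', hb.add ha', fun v => ?_⟩
    beta_reduce
    rw [e, e']
    push_cast
    ring
  | mul _ _ ih ih' =>
    obtain ⟨a, b, ha, hb, e⟩ := ih
    obtain ⟨a', b', ha', hb', e'⟩ := ih'
    refine ⟨fun v => a v * a' v + b v * b' v, fun v => a v * b' v + b v * a' v,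
      (ha.mul ha').add (hb.mul hb'), (ha.mul hb').add (hb.mul ha'), fun v => ?_⟩
    beta_reduce
    rw [e, e']
    push_cast
    ring

/-- an arithmetical relation depends on finitely many variables -/
theorem fin_supp {γ : Type} {P : (γ → ℕ) → Prop} (h : Ar γ P) :
    ∃ (s : Set γ) (_ : s.Finite) (Q : (s → ℕ) → Prop), Ar s Q ∧ ∀ v, P v ↔ Q fun i => v i := by
  induction h with
  | add i j k =>
    exact ⟨{i, j, k}, Set.toFinite _, _, Ar.add ⟨i, by simp⟩ ⟨j, by simp⟩ ⟨k, by simp⟩,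
      fun v => Iff.rfl⟩
  | mul i j k =>
    exact ⟨{i, j, k}, Set.toFinite _, _, Ar.mul ⟨i, by simp⟩ ⟨j, by simp⟩ ⟨k, by simp⟩,
      fun v => Iff.rfl⟩
  | not _ ih =>
    obtain ⟨s, hs, Q, hQ, e⟩ := ih
    exact ⟨s, hs, _, hQ.not, fun v => not_congr (e v)⟩
  | and _ _ ih ih' =>
    obtain ⟨s, hs, Q, hQ, e⟩ := ih
    obtain ⟨s', hs', Q', hQ', e'⟩ := ih'
    exact ⟨s ∪ s', hs.union hs', _, (hQ.rel fun i : s => (⟨i.1, Or.inl i.2⟩ : ↥(s ∪ s'))).and
      (hQ'.rel fun i : s' => (⟨i.1, Or.inr i.2⟩ : ↥(s ∪ s'))), fun v => and_congr (e v) (e' v)⟩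
  | @ex0 γ P _ ih =>
    obtain ⟨s, hs, Q, hQ, e⟩ := ih
    let s' : Set γ := {a | some a ∈ s}
    have hs' : s'.Finite := hs.preimage (Option.some_injective _).injOn
    let g : s → Option s' := fun o => match o with
      | ⟨none, _⟩ => none
      | ⟨some a, ha⟩ => some ⟨a, ha⟩
    refine ⟨s', hs', _, Ar.ex0 (hQ.rel g), fun v => exists_congr fun x => ?_⟩
    rw [e]
    apply iff_of_eq
    congr 1
    funext o
    obtain ⟨o, ho⟩ := o
    cases o <;> rfl

theorem ex_fin {α : Type} (k : ℕ) : ∀ {P : (α ⊕ Fin k → ℕ) → Prop}, Ar (α ⊕ Fin k) P →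
    Ar α fun v => ∃ t : Fin k → ℕ, P (Sum.elim v t) := by
  induction k with
  | zero =>
    intro P h
    have h1 := h.rel (β := Option α) (Sum.elim some (fun i => i.elim0))
    refine (Ar.ex0 h1).congr fun v => ?_
    constructor
    · rintro ⟨x, hx⟩
      refine ⟨fun i => i.elim0, (iff_of_eq (congrArg P (funext fun i => ?_))).1 hx⟩
      rcases i with i | i
      · rfl
      · exact i.elim0
    · rintro ⟨t, ht⟩
      refine ⟨0, (iff_of_eq (congrArg P (funext fun i => ?_))).1 ht⟩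
      rcases i with i | i
      · rfl
      · exact i.elim0
  | succ k ih =>
    intro P h
    let g : α ⊕ Fin (k + 1) → Option (α ⊕ Fin k) := Sum.elim (fun a => some (Sum.inl a))
      (fun i => Fin.cases none (fun j => some (Sum.inr j)) i)
    refine (ih (Ar.ex0 (h.rel g))).congr fun v => ?_
    constructor
    · rintro ⟨t, x, hx⟩
      refine ⟨Fin.cons x t, (iff_of_eq (congrArg P (funext fun i => ?_))).1 hx⟩
      rcases i with i | i
      · rfl
      · refine Fin.cases ?_ (fun j => ?_) i <;> rfl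
    · rintro ⟨t, ht⟩
      refine ⟨Fin.tail t, t 0, (iff_of_eq (congrArg P (funext fun i => ?_))).1 ht⟩
      rcases i with i | i
      · rfl
      · refine Fin.cases ?_ (fun j => ?_) i <;> rfl

theorem ex_type {α β : Type} {P : (α ⊕ β → ℕ) → Prop} (h : Ar (α ⊕ β) P) :
    Ar α fun v => ∃ t : β → ℕ, P (Sum.elim v t) := by
  classical
  obtain ⟨s, hs, Q, hQ, e⟩ := fin_supp h
  let s' : Set β := {b | Sum.inr b ∈ s}
  have hs' : s'.Finite := hs.preimage Sum.inr_injective.injOn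
  have : Finite s' := hs'.to_subtype
  obtain ⟨k, ⟨φ⟩⟩ := Finite.exists_equiv_fin s'
  let g : s → α ⊕ Fin k := fun o => match o with
    | ⟨Sum.inl a, _⟩ => Sum.inl a
    | ⟨Sum.inr b, hb⟩ => Sum.inr (φ ⟨b, hb⟩)
  refine (ex_fin k (hQ.rel g)).congr fun v => ?_
  constructor
  · rintro ⟨t, ht⟩
    refine ⟨fun b => if hb : Sum.inr b ∈ s then t (φ ⟨b, hb⟩) else 0, ?_⟩
    rw [e]
    refine (iff_of_eq (congrArg Q (funext fun o => ?_))).1 ht
    obtain ⟨o, ho⟩ := o
    rcases o with o | o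
    · rfl
    · simp [g, ho]
  · rintro ⟨t, ht⟩
    refine ⟨fun i => t (φ.symm i).1, ?_⟩
    rw [e] at ht
    refine (iff_of_eq (congrArg Q (funext fun o => ?_))).1 ht
    obtain ⟨o, ho⟩ := o
    rcases o with o | o
    · rfl
    · simp [g]

theorem rear : S_rear := by
  intro R hR
  obtain ⟨β, p, hp⟩ := dprm hR
  obtain ⟨a, b, ha, hb, e⟩ := poly_nt p.2
  refine (ex_type (Ar.eq ha hb)).congr fun v => ?_
  refine Iff.trans ?_ (hp v).symm
  refine exists_congr fun t => ?_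
  have h1 := e (Sum.elim v t)
  have h2 : p (Sum.elim v t) = (a (Sum.elim v t) : ℤ) - b (Sum.elim v t) := h1
  rw [h2, sub_eq_zero]
  exact Nat.cast_inj.symm

end Pool.Agent.H972.QF.L2
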