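import Pool.Agent.H343.QF.StG

set_option autoImplicit false

/-! # QF, G1 : broken geodesics, finite version (helper972) -/

namespace Pool.Agent.H972.QF

open Pool.Agent.TH68 Pool.Agent.Helper97.Hyp Pool.Agent.H343.AN Pool.Agent.H343.QF

theorem bg1 : S_bg1 := by
  intro X _ δ κ Z n h hκ h1 h2
  have hδ := h.nonneg (Z 0)
  -- from the left
  have hA : ∀ i, i + 2 ≤ n → exc (Z 0) (Z (i + 2)) (Z (i + 1)) ≤ κ + 2 * δ := by
    intro i
    induction i with
    | zero =>
      intro hi
      have := h1 0 hi
      simp only [zero_add] at this ⊢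
      linarith
    | succ i ih =>
      intro hi
      have ih' := ih (by omega)
      have h3 := h1 (i + 1) hi
      have h4 := h2 i (by omega)
      rcases exc_split h (Z (i + 1)) (Z (i + 1 + 2)) (Z 0) (Z (i + 1 + 1)) with h5 | h5
      · exfalso
        rw [show i + 1 + 1 = i + 2 by ring] at h5 h3
        unfold exc at h5 ih' h3
        rw [dist_comm (Z (i + 2)) (Z 0), dist_comm (Z (i + 1)) (Z 0)] at h5
        linarith
      · linarith
  -- from the right
  have hB : ∀ m k, k + 2 + m = n → exc (Z k) (Z n) (Z (k + 1)) ≤ κ + 2 * δ := by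
    intro m
    induction m with
    | zero =>
      intro k hk
      have := h1 k (by omega)
      have hn : n = k + 2 := by omega
      rw [hn]
      linarith
    | succ m ih =>
      intro k hk
      have ih' := ih (k + 1) (by omega)
      have h3 := h1 k (by omega)
      have h4 := h2 k (by omega)
      rcases exc_split h (Z k) (Z (k + 2)) (Z n) (Z (k + 1)) with h5 | h5
      · linarith
      · exfalso
        rw [show k + 1 + 1 = k + 2 by ring] at ih'
        unfold exc at h5 ih' h3
        rw [dist_comm (Z n) (Z (k + 1)), dist_comm (Z n) (Z (k + 2))] at h5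
        linarith
  intro i hi
  rcases Nat.eq_zero_or_pos i with rfl | hi0
  · rw [exc_left]
    linarith
  rcases hi.eq_or_lt with rfl | hin
  · rw [exc_right]
    linarith
  obtain ⟨p, rfl⟩ : ∃ p, i = p + 1 := ⟨i - 1, by omega⟩
  have h3 := hA p (by omega)
  rcases (show p + 2 ≤ n by omega).eq_or_lt with h4 | h4
  · rw [← h4]
    linarith
  · have h5 := hB (n - (p + 3)) (p + 1) (by omega)
    have h6 := h2 p (by omega)
    rcases exc_split h (Z 0) (Z (p + 2)) (Z n) (Z (p + 1)) with h7 | h7
    · linarith
    · exfalso
      have h8 := h7.trans (add_le_add_left h3 (2 * δ))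
      rw [show p + 1 + 1 = p + 2 by ring] at h5
      unfold exc at h8 h5
      rw [dist_comm (Z n) (Z (p + 1)), dist_comm (Z n) (Z (p + 2))] at h8
      linarith

end Pool.Agent.H972.QF
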