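import Pool.Agent.H343.QF.StG

set_option autoImplicit false

/-! # QF, G3, G4 : malnormality of the powers of `a` (helper972) -/

namespace Pool.Agent.H972.QF

open Pool.Agent.TH68 Pool.Agent.Helper97.Hyp Pool.Agent.H343.AN Pool.Agent.H343.QF

theorem malpair : S_malpair := by
  intro Γ _ W a b δ D hG u v huv i j
  have hT : ∀ x : Pt W, x ∈ Ln W a v ↔ v⁻¹ • x ∈ Ln W a 1 := by
    intro x
    constructor
    · rintro ⟨k, rfl⟩
      refine ⟨k, ?_⟩
      rw [smul_pt]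
      congr 1
      group
    · rintro ⟨k, hk⟩
      refine ⟨k, ?_⟩
      have h1 : x = v • (v⁻¹ • x) := by rw [smul_inv_smul]
      rw [h1, hk, smul_pt]
      congr 1
      group
  have hne : (Ln W a 1).Nonempty := ⟨pt W (1 * a ^ (0 : ℤ)), 0, rfl⟩
  have h1 := hG.mal (v⁻¹ * u) huv (pt W (v⁻¹ * u * a ^ i)) ⟨i, rfl⟩ (pt W (v⁻¹ * u * a ^ j)) ⟨j, rfl⟩
  have h2 := pd_smul hne hT (pt W (v⁻¹ * u * a ^ i)) (pt W (v⁻¹ * u * a ^ j))
  rw [smul_pt, smul_pt] at h2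
  have e1 : ∀ k : ℤ, v * (v⁻¹ * u * a ^ k) = u * a ^ k := fun k => by group
  rw [e1, e1] at h2
  rw [h2]
  exact h1

theorem malalg : S_malalg := by
  intro Γ _ W a b δ D hG u hu k hk hmem
  obtain ⟨l, hl⟩ := Subgroup.mem_zpowers_iff.1 hmem
  -- `a ^ (k n) u = u a ^ (l n)`
  have hconj : ∀ n : ℤ, a ^ (k * n) * u = u * a ^ (l * n) := by
    intro n
    have h1 : u⁻¹ * a ^ (k * n) * u = a ^ (l * n) := by
      rw [zpow_mul, zpow_mul, hl]
      have := conj_zpow (i := n) (a := u⁻¹) (b := a ^ k)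
      rw [inv_inv] at this
      rw [← this]
    rw [← h1]
    group
  have hℓ : ∀ n : ℤ, (W.ℓ (a ^ n) : ℝ) = |(n : ℝ)| := by
    intro n
    have := hG.pow n
    have h2 : ((W.ℓ (a ^ n) : ℤ) : ℝ) = ((|n| : ℤ) : ℝ) := by rw [this]
    push_cast at h2
    exact h2
  have hbd : ∀ n : ℕ, |(k : ℝ)| * n - 2 * W.ℓ u ≤ D := by
    intro n
    have hp : pt W u ∈ Ln W a u := ⟨0, by simp⟩
    have hq : pt W (u * a ^ (l * n)) ∈ Ln W a u := ⟨l * n, rfl⟩
    have h1 := hG.mal u hu _ hp _ hq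
    have ha : pt W (a ^ (k * n)) ∈ Ln W a 1 := ⟨k * n, by rw [one_mul]⟩
    have hb : pt W 1 ∈ Ln W a 1 := ⟨0, by simp⟩
    have h2 := le_pd (p := pt W u) (q := pt W (u * a ^ (l * n))) ha hb
    have d1 : dist (pt W (1 : Γ)) (pt W (a ^ (k * n))) = |(k : ℝ)| * n := by
      rw [dist_def, out_pt, out_pt, inv_one, one_mul, hℓ]
      push_cast
      rw [abs_mul, abs_of_nonneg (Nat.cast_nonneg n : (0 : ℝ) ≤ n)]
    have d2 : dist (pt W u) (pt W (1 : Γ)) = W.ℓ u := by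
      rw [dist_def, out_pt, out_pt, mul_one, W.inv']
    have d3 : dist (pt W (u * a ^ (l * n))) (pt W (a ^ (k * n))) = W.ℓ u := by
      rw [← hconj, dist_def, out_pt, out_pt]
      have : (a ^ (k * (n : ℤ)) * u)⁻¹ * a ^ (k * (n : ℤ)) = u⁻¹ := by group
      rw [this, W.inv']
    have t1 := dist_triangle (pt W (1 : Γ)) (pt W u) (pt W (a ^ (k * n)))
    have t2 := dist_triangle (pt W (1 : Γ)) (pt W (u * a ^ (l * n))) (pt W (a ^ (k * n)))
    rw [dist_comm (pt W (1 : Γ)) (pt W u)] at t1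
    rw [dist_comm (pt W (1 : Γ)) (pt W (u * a ^ (l * n)))] at t2
    linarith
  obtain ⟨n, hn⟩ := exists_nat_gt (D + 2 * W.ℓ u)
  have h3 := hbd n
  have h4 : (1 : ℝ) ≤ |(k : ℝ)| := by
    have : (1 : ℤ) ≤ |k| := Int.one_le_abs hk
    exact_mod_cast this
  have h5 : (n : ℝ) ≤ |(k : ℝ)| * n := by
    have : (0 : ℝ) ≤ n := Nat.cast_nonneg n
    nlinarith
  linarith

end Pool.Agent.H972.QF
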